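import Pool.Agent.W660.GY.Part3.Stm
import Pool.Agent.Helper771.CircPW

/-!
A consequence of the Peter-Weyl theorem: compact groups have arbitrarily small closed subgroups
which trap all subgroups contained in a neighbourhood.
-/

namespace Pool.Agent.W660.GY.P3

open Filter Topology
open scoped Pointwise

namespace PWLaux

/-- the sum of the absolute values of the entries -/
noncomputable def nm {N : ℕ} (M : Matrix (Fin N) (Fin N) ℂ) : ℝ := ∑ i, ∑ j, ‖M i j‖

theorem nm_nonneg {N : ℕ} (M : Matrix (Fin N) (Fin N) ℂ) : 0 ≤ nm M :=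
  Finset.sum_nonneg fun _ _ => Finset.sum_nonneg fun _ _ => norm_nonneg _

theorem nm_eq_zero {N : ℕ} {M : Matrix (Fin N) (Fin N) ℂ} (h : nm M ≤ 0) : M = 0 := by
  have h0 : nm M = 0 := le_antisymm h (nm_nonneg M)
  ext i j
  have h1 := (Finset.sum_eq_zero_iff_of_nonneg
    (fun i _ => Finset.sum_nonneg fun j _ => norm_nonneg (M i j))).1 h0 i (Finset.mem_univ i)
  have h2 := (Finset.sum_eq_zero_iff_of_nonneg
    (fun j _ => norm_nonneg (M i j))).1 h1 j (Finset.mem_univ j)
  exact norm_eq_zero.1 h2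

theorem nm_mul {N : ℕ} (A B : Matrix (Fin N) (Fin N) ℂ) : nm (A * B) ≤ nm A * nm B := by
  have h1 : ∀ i j, ‖(A * B) i j‖ ≤ ∑ k, ‖A i k‖ * ‖B k j‖ := by
    intro i j
    rw [Matrix.mul_apply]
    refine (norm_sum_le _ _).trans (le_of_eq ?_)
    exact Finset.sum_congr rfl fun k _ => norm_mul _ _
  have h2 : ∀ k, ∑ j, ‖B k j‖ ≤ nm B := fun k =>
    Finset.single_le_sum (f := fun k => ∑ j, ‖B k j‖)
      (fun k _ => Finset.sum_nonneg fun j _ => norm_nonneg _) (Finset.mem_univ k)
  calc nm (A * B) ≤ ∑ i, ∑ j, ∑ k, ‖A i k‖ * ‖B k j‖ :=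
        Finset.sum_le_sum fun i _ => Finset.sum_le_sum fun j _ => h1 i j
    _ = ∑ i, ∑ k, ‖A i k‖ * ∑ j, ‖B k j‖ := by
        refine Finset.sum_congr rfl fun i _ => ?_
        rw [Finset.sum_comm]
        exact Finset.sum_congr rfl fun k _ => (Finset.mul_sum _ _ _).symm
    _ ≤ ∑ i, ∑ k, ‖A i k‖ * nm B :=
        Finset.sum_le_sum fun i _ => Finset.sum_le_sum fun k _ =>
          mul_le_mul_of_nonneg_left (h2 k) (norm_nonneg _)
    _ = nm A * nm B := by
        unfold nm
        rw [Finset.sum_mul]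
        exact Finset.sum_congr rfl fun i _ => (Finset.sum_mul _ _ _).symm

theorem nm_sub {N : ℕ} (A B : Matrix (Fin N) (Fin N) ℂ) : nm (A - B) ≤ nm A + nm B := by
  unfold nm
  rw [← Finset.sum_add_distrib]
  refine Finset.sum_le_sum fun i _ => ?_
  rw [← Finset.sum_add_distrib]
  exact Finset.sum_le_sum fun j _ => norm_sub_le _ _

theorem nm_two {N : ℕ} (A : Matrix (Fin N) (Fin N) ℂ) : nm ((2 : ℂ) • A) = 2 * nm A := by
  unfold nm
  rw [Finset.mul_sum]
  refine Finset.sum_congr rfl fun i _ => ?_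
  rw [Finset.mul_sum]
  refine Finset.sum_congr rfl fun j _ => ?_
  rw [Matrix.smul_apply, norm_smul]
  simp

theorem nm_cont {N : ℕ} {B : Type} [TopologicalSpace B] (f : B → Matrix (Fin N) (Fin N) ℂ)
    (hf : Continuous f) : Continuous fun x => nm (f x) := by
  unfold nm
  refine continuous_finset_sum _ fun i _ => continuous_finset_sum _ fun j _ => ?_
  exact (hf.matrix_elem i j).norm

/-- one representation -/
theorem one (B : Type) [Group B] [TopologicalSpace B] [IsTopologicalGroup B]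
    [CompactSpace B] [T2Space B] (b : B) : ∃ (N : Subgroup B) (O : Set B),
    IsClosed (N : Set B) ∧ IsOpen O ∧ (N : Set B) ⊆ O ∧
    (∀ S : Subgroup B, (S : Set B) ⊆ O → S ≤ N) ∧ (b ≠ 1 → b ∉ N) := by
  by_cases hb : b = 1
  · exact ⟨⊤, Set.univ, isClosed_univ, isOpen_univ, Set.subset_univ _, fun S _ => le_top,
      fun h => absurd hb h⟩
  obtain ⟨n, ρ, hρ, hρb⟩ := Pool.Agent.Helper771.Circ.exists_rep_ne_one B b hb
  refine ⟨ρ.ker, {x | nm (ρ x - 1) < 1 / 2}, ?_, ?_, ?_, ?_, fun _ h => hρb h⟩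
  · have : ((ρ.ker : Subgroup B) : Set B) = ρ ⁻¹' {1} := by
      ext x
      exact MonoidHom.mem_ker
    rw [this]
    exact isClosed_singleton.preimage hρ
  · exact isOpen_lt (nm_cont _ (hρ.sub continuous_const)) continuous_const
  · intro x hx
    have hx' : ρ x = 1 := hx
    show nm (ρ x - 1) < 1 / 2
    rw [hx', sub_self]
    simp [nm]
  · intro S hS x hx
    have key : ∀ k : ℕ, ∀ y ∈ S, nm (ρ y - 1) ≤ (3 / 4) ^ k * (1 / 2) := by
      intro k
      induction k with
      | zero =>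
        intro y hy
        have h := hS hy
        have h' : nm (ρ y - 1) < 1 / 2 := h
        simpa using h'.le
      | succ k ih =>
        intro y hy
        have e : (2 : ℂ) • (ρ y - 1) = (ρ (y * y) - 1) - (ρ y - 1) * (ρ y - 1) := by
          rw [map_mul, two_smul]
          noncomm_ring
        have h1 := nm_sub (ρ (y * y) - 1) ((ρ y - 1) * (ρ y - 1))
        rw [← e, nm_two] at h1
        have h2 := nm_mul (ρ y - 1) (ρ y - 1)
        have h3 := ih (y * y) (S.mul_mem hy hy)
        have h4 := ih y hy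
        have h5 : nm (ρ y - 1) < 1 / 2 := hS hy
        have h6 : nm (ρ y - 1) * nm (ρ y - 1) ≤ (1 / 2) * ((3 / 4) ^ k * (1 / 2)) :=
          mul_le_mul h5.le h4 (nm_nonneg _) (by norm_num)
        rw [pow_succ]
        linarith
    have h0 : nm (ρ x - 1) ≤ 0 := by
      by_contra hcon
      push Not at hcon
      obtain ⟨k, hk⟩ := exists_pow_lt_of_lt_one hcon (show (3 / 4 : ℝ) < 1 by norm_num)
      have := key k x hx
      linarith
    have h1 := nm_eq_zero h0
    exact MonoidHom.mem_ker.2 (sub_eq_zero.1 h1)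

end PWLaux

open PWLaux in
theorem pwl : S_PWL := by
  intro B _ _ _ _ _ U hU
  choose N O hN hO hNO hS hb using one B
  have hK : IsCompact ((interior U)ᶜ : Set B) := isOpen_interior.isClosed_compl.isCompact
  obtain ⟨t, ht, hcov⟩ := hK.elim_nhds_subcover (fun b => ((N b : Set B))ᶜ) (by
    intro b hbU
    have hb1 : b ≠ 1 := by
      rintro rfl
      exact hbU (mem_interior_iff_mem_nhds.2 hU)
    exact (hN b).isOpen_compl.mem_nhds (hb b hb1))
  refine ⟨⨅ b ∈ t, N b, ⋂ b ∈ t, O b, ?_, ?_, ?_, ?_, ?_⟩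
  · rw [Subgroup.coe_iInf]
    refine isClosed_iInter fun b => ?_
    rw [Subgroup.coe_iInf]
    exact isClosed_iInter fun _ => hN b
  · intro x hx
    by_contra hxU
    have hx1 : x ∈ ((interior U)ᶜ : Set B) := fun h => hxU (interior_subset h)
    obtain ⟨b, hbt, hxb⟩ := Set.mem_iUnion₂.1 (hcov hx1)
    apply hxb
    have h2 : x ∈ (⨅ b ∈ t, N b : Subgroup B) := hx
    rw [Subgroup.mem_iInf] at h2
    have h3 := h2 b
    rw [Subgroup.mem_iInf] at h3
    exact h3 hbt
  · exact isOpen_biInter_finset fun b _ => hO b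
  · intro x hx
    have h2 : x ∈ (⨅ b ∈ t, N b : Subgroup B) := hx
    rw [Subgroup.mem_iInf] at h2
    refine Set.mem_iInter₂.2 fun b hbt => ?_
    have h3 := h2 b
    rw [Subgroup.mem_iInf] at h3
    exact hNO b (h3 hbt)
  · intro S hSO
    refine le_iInf₂ fun b hbt => ?_
    exact hS b S fun x hx => Set.mem_iInter₂.1 (hSO hx) b hbt

end Pool.Agent.W660.GY.P3
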