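import Pool.Agent.W660.GY.Part3.Stm

/-!
Gleason-Yamabe theorem, part 3: uniform continuity under conjugation by a compact set.
-/

namespace Pool.Agent.W660.GY.P3

open Filter Topology
open scoped Pointwise

theorem uc_aux_near {G : Type} [Group G] [TopologicalSpace G] [IsTopologicalGroup G]
    (η : G → ℝ) (ε : ℝ) (hη : Continuous η) (hc : HasCompactSupport η) (hε : 0 < ε) :
    ∀ᶠ v in 𝓝 (1 : G), ∀ z ∈ tsupport η, |η (v * z) - η z| ≤ ε := by
  have hK : IsCompact (tsupport η) := hc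
  apply hK.eventually_forall_of_forall_eventually
    (P := fun (v : G) (z : G) => |η (v * z) - η z| ≤ ε)
  intro z _
  have hcont : Continuous (fun w : G × G => |η (w.1 * w.2) - η w.2|) := by fun_prop
  have h0 : (fun w : G × G => |η (w.1 * w.2) - η w.2|) ((1 : G), z) < ε := by
    simpa using hε
  have h1 := hcont.continuousAt.eventually (Iio_mem_nhds h0)
  filter_upwards [h1] with w hw
  exact (show |η (w.1 * w.2) - η w.2| < ε from hw).le

theorem uc_aux_all {G : Type} [Group G] [TopologicalSpace G] [IsTopologicalGroup G]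
    (η : G → ℝ) (ε : ℝ) (hη : Continuous η) (hc : HasCompactSupport η) (hε : 0 < ε) :
    ∀ᶠ v in 𝓝 (1 : G), ∀ z : G, |η (v * z) - η z| ≤ ε := by
  have h1 := uc_aux_near η ε hη hc hε
  have h2 : ∀ᶠ v in 𝓝 (1 : G), ∀ z ∈ tsupport η, |η (v⁻¹ * z) - η z| ≤ ε := by
    have ht : Tendsto (fun v : G => v⁻¹) (𝓝 (1 : G)) (𝓝 (1 : G)) := by
      have := (continuous_inv (G := G)).tendsto (1 : G)
      rwa [inv_one] at this
    exact ht.eventually h1
  filter_upwards [h1, h2] with v hv hv' z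
  by_cases hz : z ∈ tsupport η
  · exact hv z hz
  · have e1 : η z = 0 := image_eq_zero_of_notMem_tsupport hz
    by_cases hw : v * z ∈ tsupport η
    · have := hv' (v * z) hw
      rw [inv_mul_cancel_left, abs_sub_comm] at this
      exact this
    · have e2 : η (v * z) = 0 := image_eq_zero_of_notMem_tsupport hw
      rw [e1, e2]
      simpa using hε.le

theorem uc : S_UC := by
  intro G _ _ _ _ _ η K ε hη hc hK hε
  have hW := uc_aux_all η ε hη hc hε
  have hV : ∀ᶠ h in 𝓝 (1 : G), ∀ y ∈ K, ∀ z : G, |η ((y⁻¹ * h⁻¹ * y) * z) - η z| ≤ ε := by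
    apply hK.eventually_forall_of_forall_eventually
      (P := fun (h : G) (y : G) => ∀ z : G, |η ((y⁻¹ * h⁻¹ * y) * z) - η z| ≤ ε)
    intro y _
    have hcont : Continuous (fun w : G × G => w.2⁻¹ * w.1⁻¹ * w.2) := by fun_prop
    have ht : Tendsto (fun w : G × G => w.2⁻¹ * w.1⁻¹ * w.2) (𝓝 ((1 : G), y)) (𝓝 (1 : G)) := by
      have := hcont.tendsto ((1 : G), y)
      simpa using this
    exact ht.eventually hW
  refine ⟨_, hV, ?_⟩
  intro h hh y hy x
  have := hh y hy (y⁻¹ * x)
  have e : (y⁻¹ * h⁻¹ * y) * (y⁻¹ * x) = y⁻¹ * (h⁻¹ * x) := by group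
  rw [e] at this
  exact this

end Pool.Agent.W660.GY.P3
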