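import Pool.Agent.W660.GY.Part3.Stm

/-! Piece GY3-VDT: van Dantzig for totally disconnected groups. -/

set_option autoImplicit false

namespace Pool.Agent.W660.GY.P3

open Filter Topology
open scoped Pointwise

theorem vdt : S_VDT := by
  intro G _ _ _ _ _ _
  obtain ⟨K, hK, hKn⟩ := exists_compact_mem_nhds (1 : G)
  obtain ⟨W, hWc, h1W, hWK⟩ :=
    (loc_compact_Haus_tot_disc_of_zero_dim (H := G)).mem_nhds_iff.1 hKn
  have hWc : IsClopen W := hWc
  have hWcomp : IsCompact W := hK.of_isClosed_subset hWc.isClosed hWK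
  obtain ⟨T, hT, hWT⟩ := compact_open_separated_mul_right hWcomp hWc.isOpen (subset_refl W)
  let H : Subgroup G :=
    { carrier := {g | (∀ w ∈ W, w * g ∈ W) ∧ ∀ w ∈ W, w * g⁻¹ ∈ W}
      mul_mem' := by
        intro a b ha hb
        refine ⟨fun w hw => ?_, fun w hw => ?_⟩
        · rw [← mul_assoc]
          exact hb.1 _ (ha.1 w hw)
        · rw [mul_inv_rev, ← mul_assoc]
          exact ha.2 _ (hb.2 w hw)
      one_mem' := by
        refine ⟨fun w hw => ?_, fun w hw => ?_⟩
        · rwa [mul_one]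
        · rwa [inv_one, mul_one]
      inv_mem' := by
        intro a ha
        refine ⟨ha.2, fun w hw => ?_⟩
        rw [inv_inv]
        exact ha.1 w hw }
  have hHo : IsOpen (H : Set G) := by
    apply Subgroup.isOpen_of_mem_nhds (g := 1)
    have h2 : T⁻¹ ∈ 𝓝 (1 : G) := by
      have := inv_mem_nhds_one G hT
      exact this
    filter_upwards [hT, h2] with g hg hg'
    refine ⟨fun w hw => ?_, fun w hw => ?_⟩
    · exact hWT (Set.mul_mem_mul hw hg)
    · exact hWT (Set.mul_mem_mul hw hg')
  have hHW : (H : Set G) ⊆ W := by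
    intro g hg
    have h3 := hg.1 1 h1W
    rwa [one_mul] at h3
  exact ⟨H, hHo, hWcomp.of_isClosed_subset (Subgroup.isClosed_of_isOpen H hHo) hHW⟩

end Pool.Agent.W660.GY.P3
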