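import Pool.Agent.W660.GY.Part3.Stm

/-!
Gleason-Yamabe theorem, part 3: the local quotient without small subgroups (assembly).
-/

namespace Pool.Agent.W660.GY.P3

open Filter Topology
open scoped Pointwise

private theorem casm_conj {G : Type} [Group G] [TopologicalSpace G] [IsTopologicalGroup G]
    (N : Subgroup G) (hN : IsCompact (N : Set G)) (O : Set G) (hO : IsOpen O)
    (hNO : (N : Set G) ⊆ O) :
    ∀ᶠ g in 𝓝 (1 : G), ∀ n ∈ (N : Set G), g * n * g⁻¹ ∈ O := by
  have h : ∀ n ∈ (N : Set G), ∀ᶠ z : G × G in 𝓝 ((1 : G), n), z.1 * z.2 * z.1⁻¹ ∈ O := by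
    intro n hn
    have hc : Continuous fun z : G × G => z.1 * z.2 * z.1⁻¹ := by fun_prop
    apply hc.continuousAt.eventually
    apply hO.mem_nhds
    simpa using hNO hn
  exact hN.eventually_forall_of_forall_eventually h

theorem casm : S_CASM := by
  intro hT hP G _ _ _ _ _ U hU
  obtain ⟨V, hV, H, hHc, hHU, hHV⟩ := hT G U hU
  obtain ⟨N, O1, hNH, hNc, hNU, hO1, hNO1, hS⟩ :=
    hP G H (interior V ∩ U) hHc (inter_mem (interior_mem_nhds.2 hV) hU)
  have hO : IsOpen (O1 ∩ interior V) := hO1.inter isOpen_interior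
  have hNO : (N : Set G) ⊆ O1 ∩ interior V := fun n hn => ⟨hNO1 hn, (hNU hn).1⟩
  have key : ∀ S : Subgroup G, (S : Set G) ⊆ O1 ∩ interior V → S ≤ N := fun S hSO =>
    hS S (hHV S (fun x hx => interior_subset (hSO hx).2)) (fun x hx => subset_closure (hSO hx).1)
  have hconj := casm_conj N hNc _ hO hNO
  have hconj' : ∀ᶠ g in 𝓝 (1 : G), ∀ n ∈ (N : Set G),
      g⁻¹ * n * g⁻¹⁻¹ ∈ O1 ∩ interior V := by
    have ht : Tendsto (fun g : G => g⁻¹) (𝓝 1) (𝓝 1) := by
      simpa using (continuous_inv (G := G)).tendsto 1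
    exact ht.eventually hconj
  have hmap : ∀ g : G, (∀ n ∈ (N : Set G), g * n * g⁻¹ ∈ O1 ∩ interior V) →
      ∀ n ∈ N, g * n * g⁻¹ ∈ N := by
    intro g hg n hn
    have h1 : N.map (MulAut.conj g).toMonoidHom ≤ N := by
      apply key
      rintro _ ⟨m, hm, rfl⟩
      exact hg m hm
    exact h1 ⟨n, hn, rfl⟩
  have hmem : ∀ g : G, g ∈ Subgroup.normalizer (N : Set G) ↔ ∀ h, h ∈ N ↔ g * h * g⁻¹ ∈ N := by
    intro g
    exact Subgroup.mem_normalizer_iff
  refine ⟨Subgroup.normalizer (N : Set G), N, O1 ∩ interior V, ?_, Subgroup.le_normalizer, ?_, hNc,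
    fun n hn => (hNU hn).2, hO, hNO, key⟩
  · apply Subgroup.isOpen_of_mem_nhds (g := 1)
    filter_upwards [hconj, hconj'] with g h1 h2
    have e1 := hmap g h1
    have e2 := hmap g⁻¹ h2
    rw [SetLike.mem_coe, hmem]
    intro h
    constructor
    · exact e1 h
    · intro hh
      have h3 := e2 _ hh
      simpa [mul_assoc] using h3
  · intro g hg n hn
    exact ((hmem g).1 hg n).1 hn

end Pool.Agent.W660.GY.P3
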