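import Pool.Agent.W660.GY.Part3.Stm

/-!
Gleason-Yamabe theorem, part 3: the kernel of a finite index subgroup.
-/

set_option autoImplicit false

namespace Pool.Agent.W660.GY.P3

open Filter Topology
open scoped Pointwise

theorem core : S_CORE := by
  intro G _ _ _ _ L N O V hfi hNL hnorm hNc hNV hO hNO hS
  have hNcl : IsClosed (N : Set G) := hNc.isClosed
  have hMmem : ∀ a : G, a ∈ N.normalCore ↔ ∀ b : G, b * a * b⁻¹ ∈ N := fun a => Iff.rfl
  have hMle : N.normalCore ≤ N := Subgroup.normalCore_le N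
  have hMcl : IsClosed (N.normalCore : Set G) := by
    have h : (N.normalCore : Set G) = ⋂ b : G, {a | b * a * b⁻¹ ∈ (N : Set G)} := by
      ext a
      simp only [SetLike.mem_coe, Set.mem_iInter, Set.mem_setOf_eq]
      exact hMmem a
    rw [h]
    refine isClosed_iInter fun b => ?_
    exact hNcl.preimage (by fun_prop : Continuous fun a : G => b * a * b⁻¹)
  have hMc : IsCompact (N.normalCore : Set G) := hNc.of_isClosed_subset hMcl hMle
  refine ⟨N.normalCore, inferInstance, hMc, fun x hx => hNV (hMle hx), ?_⟩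
  haveI : Finite (G ⧸ L) := Subgroup.finite_quotient_of_finiteIndex
  let O1 : Set G := ⋂ r : G ⧸ L, {x | r.out⁻¹ * x * r.out ∈ O}
  have hO1 : IsOpen O1 := by
    refine isOpen_iInter_of_finite fun r => ?_
    exact hO.preimage (by fun_prop : Continuous fun a : G => r.out⁻¹ * a * r.out)
  have hMO1 : (N.normalCore : Set G) ⊆ O1 := by
    intro x hx
    refine Set.mem_iInter.2 fun r => ?_
    apply hNO
    have := (hMmem x).1 hx r.out⁻¹
    simpa using this
  -- subgroups of O1 are inside the core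
  have hsub : ∀ S : Subgroup G, (S : Set G) ⊆ O1 → S ≤ N.normalCore := by
    intro S hSO x hx
    have hr : ∀ r : G ⧸ L, ∀ y ∈ S, r.out⁻¹ * y * r.out ∈ N := by
      intro r y hy
      have h1 : (S.map (MulAut.conj r.out⁻¹).toMonoidHom : Subgroup G) ≤ N := by
        apply hS
        rintro z ⟨w, hw, rfl⟩
        have := Set.mem_iInter.1 (hSO hw) r
        simpa using this
      have h2 : (MulAut.conj r.out⁻¹).toMonoidHom y ∈
          (S.map (MulAut.conj r.out⁻¹).toMonoidHom : Subgroup G) :=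
        Subgroup.mem_map_of_mem _ hy
      have := h1 h2
      simpa using this
    refine (hMmem x).2 fun g => ?_
    -- g⁻¹ = r * l
    obtain ⟨l, hl⟩ : ∃ l : L, ((g⁻¹ : G) : G ⧸ L).out * l = g⁻¹ := by
      have h := QuotientGroup.mk_out_eq_mul L (g⁻¹)
      obtain ⟨l, hl⟩ := h
      refine ⟨l⁻¹, ?_⟩
      rw [hl]
      simp
    set r := ((g⁻¹ : G) : G ⧸ L).out with hrdef
    have hg : g = (l : G)⁻¹ * r⁻¹ := by
      rw [← mul_inv_rev, hl, inv_inv]
    have h1 : r⁻¹ * x * r ∈ N := hr _ x hx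
    have h2 := hnorm (l : G)⁻¹ (L.inv_mem l.2) _ h1
    have h3 : g * x * g⁻¹ = (l : G)⁻¹ * (r⁻¹ * x * r) * (l : G)⁻¹⁻¹ := by
      rw [hg]; group
    rw [h3]; exact h2
  obtain ⟨W, hW, hWM⟩ := compact_open_separated_mul_left hMc hO1 hMO1
  refine ⟨(QuotientGroup.mk : G → G ⧸ N.normalCore) '' W, ?_, ?_⟩
  · have := (QuotientGroup.isOpenMap_coe (N := N.normalCore)).image_mem_nhds hW
    simpa using this
  · intro S hSU
    have h1 : S.comap (QuotientGroup.mk' N.normalCore) ≤ N.normalCore := by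
      apply hsub
      intro x hx
      apply hWM
      obtain ⟨w, hw, hwx⟩ := hSU (show (QuotientGroup.mk' N.normalCore) x ∈ (S : Set _) from hx)
      refine ⟨w, hw, w⁻¹ * x, ?_, by simp⟩
      exact QuotientGroup.eq.1 hwx
    rw [eq_bot_iff]
    intro y hy
    obtain ⟨x, rfl⟩ := QuotientGroup.mk'_surjective N.normalCore y
    have hx : x ∈ N.normalCore := h1 hy
    rw [Subgroup.mem_bot]
    exact (QuotientGroup.eq_one_iff x).2 hx

end Pool.Agent.W660.GY.P3
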