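import Mathlib

/-!
Gleason-Yamabe theorem, part 3 (reduction to groups without small subgroups): statements.
-/

namespace Pool.Agent.W660.GY.P3

open Filter Topology
open scoped Pointwise

/-- `Q` contains `1` and all powers of its elements (union of subgroups) -/
def US {G : Type} [Group G] (Q : Set G) : Prop := (1 : G) ∈ Q ∧ ∀ g ∈ Q, ∀ n : ℤ, g ^ n ∈ Q

/-- limit set of a family of sets -/
def Lim {G : Type} [TopologicalSpace G] (F : Filter (Set G)) (A : Set G → Set G) : Set G :=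
  {x | ∀ O ∈ 𝓝 x, ∀ᶠ V in F, (A V ∩ O).Nonempty}

/-- uniform continuity under conjugation by a compact set -/
def S_UC : Prop := ∀ (G : Type) [Group G] [TopologicalSpace G] [IsTopologicalGroup G] [T2Space G]
  [LocallyCompactSpace G] (η : G → ℝ) (K : Set G) (ε : ℝ), Continuous η → HasCompactSupport η →
  IsCompact K → 0 < ε → ∃ V ∈ 𝓝 (1 : G), ∀ h ∈ V, ∀ y ∈ K, ∀ x : G,
  |η (y⁻¹ * (h⁻¹ * x)) - η (y⁻¹ * x)| ≤ ε

/-- the Lipschitz function of a set of subgroups -/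
def S_PSI : Prop := ∀ (G : Type) [Group G] [TopologicalSpace G] [IsTopologicalGroup G]
  [MeasurableSpace G] [BorelSpace G] (Q U : Set G) (s : ℕ), US Q → IsOpen U → 1 ≤ s →
  ∃ ψ : G → ℝ, Measurable ψ ∧ (∀ x, 0 ≤ ψ x) ∧ (∀ x, ψ x ≤ 1) ∧ (∀ x ∈ U, ψ x = 1) ∧
    (∀ x, ψ x ≠ 0 → x ∈ Q ^ s * U) ∧
    ∀ g ∈ Q, (∀ x, |ψ x - ψ (g⁻¹ * x)| ≤ 1 / s) ∧
      (∀ x, ψ x - ψ (g⁻¹ * x) ≠ 0 → x ∈ Q ^ s * U)

/-- convolution with a bump function -/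
def S_PHI : Prop := ∀ (G : Type) [Group G] [TopologicalSpace G] [IsTopologicalGroup G] [T2Space G]
  [LocallyCompactSpace G] [MeasurableSpace G] [BorelSpace G] (μ : MeasureTheory.Measure G)
  [μ.IsHaarMeasure] (η ψ : G → ℝ) (K U Q V : Set G) (ε : ℝ) (s : ℕ),
  Continuous η → HasCompactSupport η → (∀ x, 0 ≤ η x) → (∀ x, η x ≤ 1) →
  IsCompact K → IsOpen U → U ⊆ K → 0 < ε → 1 ≤ s → Measurable ψ → (∀ x, 0 ≤ ψ x) →
  (∀ x, ψ x ≤ 1) → (∀ x ∈ U, ψ x = 1) → (∀ x, ψ x ≠ 0 → x ∈ K) →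
  (∀ g ∈ Q, (∀ x, |ψ x - ψ (g⁻¹ * x)| ≤ 1 / s) ∧ (∀ x, ψ x - ψ (g⁻¹ * x) ≠ 0 → x ∈ K)) →
  (∀ h ∈ V, ∀ y ∈ K, ∀ x : G, |η (y⁻¹ * (h⁻¹ * x)) - η (y⁻¹ * x)| ≤ ε) →
  ∃ φ : G → ℝ, (∀ x, φ x ≠ 0 → ∃ y, ψ y ≠ 0 ∧ η (y⁻¹ * x) ≠ 0) ∧
    (∫ y in U, η y⁻¹ ∂μ) ≤ φ 1 ∧
    (∀ g ∈ Q, ∀ x, |φ x - φ (g⁻¹ * x)| ≤ μ.real K / s) ∧
    ∀ g ∈ Q, ∀ h ∈ V, ∀ x, |(φ x - φ (g⁻¹ * x)) - (φ (h⁻¹ * x) - φ (g⁻¹ * (h⁻¹ * x)))|
      ≤ ε * μ.real K / s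

/-- telescoping along the powers of an element -/
def S_TEL : Prop := ∀ (G : Type) [Group G] (φ : G → ℝ) (Q : Set G) (A ε : ℝ), US Q →
  (∀ g ∈ Q, ∀ x, |φ x - φ (g⁻¹ * x)| ≤ A) →
  (∀ g ∈ Q, ∀ h ∈ Q, ∀ x, |(φ x - φ (g⁻¹ * x)) - (φ (h⁻¹ * x) - φ (g⁻¹ * (h⁻¹ * x)))| ≤ ε) →
  ∀ g ∈ Q, ∀ x, |φ x - φ (g⁻¹ * x)| ≤ ε

/-- Gleason lemma -/
def S_GLEM : Prop := ∀ (G : Type) [Group G] [TopologicalSpace G] [IsTopologicalGroup G] [T2Space G]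
  [LocallyCompactSpace G] (K U : Set G), IsCompact K → U ∈ 𝓝 (1 : G) → ∃ V ∈ 𝓝 (1 : G),
  ∀ Q : Set G, US Q → Q ⊆ V → ∀ s : ℕ, 1 ≤ s → Q ^ s ⊆ K → Q ^ (2 * s) ⊆ Q ^ s * U

/-- assembly of the Gleason lemma -/
def S_GASM : Prop := S_UC → S_PSI → S_PHI → S_TEL → S_GLEM

/-- limit sets are closed -/
def S_LCL : Prop := ∀ (G : Type) [TopologicalSpace G] (F : Filter (Set G)) (A : Set G → Set G),
  IsClosed (Lim F A)

/-- limit sets of subsets of a closed set -/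
def S_LSUB : Prop := ∀ (G : Type) [TopologicalSpace G] (F : Filter (Set G)) [F.NeBot]
  (A : Set G → Set G) (K : Set G), IsClosed K → (∀ᶠ V in F, A V ⊆ K) → Lim F A ⊆ K

/-- neighbourhoods of limit sets -/
def S_LCOV : Prop := ∀ (G : Type) [TopologicalSpace G] (F : Ultrafilter (Set G))
  (A : Set G → Set G) (K O : Set G), IsCompact K → (∀ᶠ V in (F : Filter (Set G)), A V ⊆ K) →
  IsOpen O → Lim (F : Filter (Set G)) A ⊆ O → ∀ᶠ V in (F : Filter (Set G)), A V ⊆ O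

/-- limit sets are groups -/
def S_LGRP : Prop := S_GLEM → ∀ (G : Type) [Group G] [TopologicalSpace G] [IsTopologicalGroup G]
  [T2Space G] [LocallyCompactSpace G] (F : Filter (Set G)) (Q : Set G → Set G) (s : Set G → ℕ)
  (K : Set G), F ≤ (𝓝 (1 : G)).smallSets → (∀ᶠ V in F, US (Q V) ∧ Q V ⊆ V ∧ 1 ≤ s V ∧
    Q V ^ s V ⊆ K) → IsCompact K →
  ∃ H : Subgroup G, (H : Set G) = Lim F fun V => Q V ^ s V

/-- one more factor does not change the limit -/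
def S_LSTEP : Prop := ∀ (G : Type) [Group G] [TopologicalSpace G] [IsTopologicalGroup G]
  (F : Filter (Set G)) (Q : Set G → Set G) (s : Set G → ℕ),
  F ≤ (𝓝 (1 : G)).smallSets → (∀ᶠ V in F, Q V ⊆ V) →
  Lim F (fun V => Q V ^ (s V + 1)) ⊆ Lim F fun V => Q V ^ s V

/-- consequence of the Peter-Weyl theorem -/
def S_PWL : Prop := ∀ (B : Type) [Group B] [TopologicalSpace B] [IsTopologicalGroup B]
  [CompactSpace B] [T2Space B] (U : Set B), U ∈ 𝓝 (1 : B) → ∃ (N : Subgroup B) (O : Set B),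
  IsClosed (N : Set B) ∧ (N : Set B) ⊆ U ∧ IsOpen O ∧ (N : Set B) ⊆ O ∧
  ∀ S : Subgroup B, (S : Set B) ⊆ O → S ≤ N

/-- the same for compact subgroups -/
def S_PWG : Prop := ∀ (G : Type) [Group G] [TopologicalSpace G] [IsTopologicalGroup G]
  [T2Space G] [LocallyCompactSpace G] (H : Subgroup G) (U : Set G), IsCompact (H : Set G) →
  U ∈ 𝓝 (1 : G) → ∃ (N : Subgroup G) (O : Set G), N ≤ H ∧ IsCompact (N : Set G) ∧
  (N : Set G) ⊆ U ∧ IsOpen O ∧ (N : Set G) ⊆ O ∧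
  ∀ S : Subgroup G, S ≤ H → (S : Set G) ⊆ closure O → S ≤ N

def S_PWLG : Prop := S_PWL → S_PWG

/-- subgroup trapping -/
def S_TRAP : Prop := ∀ (G : Type) [Group G] [TopologicalSpace G] [IsTopologicalGroup G]
  [T2Space G] [LocallyCompactSpace G] (U : Set G), U ∈ 𝓝 (1 : G) →
  ∃ V ∈ 𝓝 (1 : G), ∃ H : Subgroup G, IsCompact (H : Set G) ∧ (H : Set G) ⊆ U ∧
  ∀ S : Subgroup G, (S : Set G) ⊆ V → S ≤ H

def S_TASM : Prop := S_GLEM → S_LCL → S_LSUB → S_LCOV → S_LGRP → S_LSTEP → S_PWG → S_TRAP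

/-- quotients without small subgroups of small open subgroups -/
def S_LOCN : Prop := ∀ (G : Type) [Group G] [TopologicalSpace G] [IsTopologicalGroup G]
  [T2Space G] [LocallyCompactSpace G] (U : Set G), U ∈ 𝓝 (1 : G) →
  ∃ (L N : Subgroup G) (O : Set G), IsOpen (L : Set G) ∧ N ≤ L ∧
  (∀ g ∈ L, ∀ n ∈ N, g * n * g⁻¹ ∈ N) ∧ IsCompact (N : Set G) ∧ (N : Set G) ⊆ U ∧ IsOpen O ∧
  (N : Set G) ⊆ O ∧ ∀ S : Subgroup G, (S : Set G) ⊆ O → S ≤ N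

def S_CASM : Prop := S_TRAP → S_PWG → S_LOCN

/-- van Dantzig -/
def S_VD : Prop := ∀ (G : Type) [Group G] [TopologicalSpace G] [IsTopologicalGroup G]
  [T2Space G] [LocallyCompactSpace G], ∃ H : Subgroup G, IsOpen (H : Set G) ∧
  ∀ L : Subgroup G, IsOpen (L : Set G) → L ≤ H → (L.subgroupOf H).FiniteIndex

/-- totally disconnected case of van Dantzig -/
def S_VDT : Prop := ∀ (G : Type) [Group G] [TopologicalSpace G] [IsTopologicalGroup G]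
  [T2Space G] [LocallyCompactSpace G] [TotallyDisconnectedSpace G], ∃ H : Subgroup G,
  IsOpen (H : Set G) ∧ IsCompact (H : Set G)

/-- reduction to the totally disconnected case -/
def S_VDR : Prop := S_VDT → S_VD

/-- the kernel of a finite index subgroup -/
def S_CORE : Prop := ∀ (G : Type) [Group G] [TopologicalSpace G] [IsTopologicalGroup G]
  [T2Space G] (L N : Subgroup G) (O V : Set G), L.FiniteIndex → N ≤ L →
  (∀ g ∈ L, ∀ n ∈ N, g * n * g⁻¹ ∈ N) → IsCompact (N : Set G) → (N : Set G) ⊆ V → IsOpen O →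
  (N : Set G) ⊆ O → (∀ S : Subgroup G, (S : Set G) ⊆ O → S ≤ N) →
  ∃ (M : Subgroup G) (_ : M.Normal), IsCompact (M : Set G) ∧ (M : Set G) ⊆ V ∧
    ∃ U ∈ 𝓝 (1 : G ⧸ M), ∀ S : Subgroup (G ⧸ M), (S : Set (G ⧸ M)) ⊆ U → S = ⊥

end Pool.Agent.W660.GY.P3
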