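import Pool.Agent.W660.GY.Stm
import Pool.Agent.W660.GY.Part3.Stm

/-!
Gleason-Yamabe theorem, part 3: final assembly.
-/

namespace Pool.Agent.W660.GY.P3

open Filter Topology
open scoped Pointwise

theorem gy3_of (hvd : S_VD) (hlocn : S_LOCN) (hcore : S_CORE) : GY3 := by
  intro G _ _ _ _ _
  obtain ⟨H, hHo, hH⟩ := hvd G
  refine ⟨H, hHo, ?_⟩
  have hlc : LocallyCompactSpace H := hHo.locallyCompactSpace
  intro V hV
  obtain ⟨L, N, O, hLo, hNL, hLN, hNc, hNV, hOo, hNO, hS⟩ := hlocn H V hV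
  have hfin : L.FiniteIndex := by
    have h1 := hH (L.map H.subtype) (by
      rw [Subgroup.coe_map]
      exact hHo.isOpenEmbedding_subtypeVal.isOpenMap _ hLo) (Subgroup.map_subtype_le L)
    have h2 : (L.map H.subtype).subgroupOf H = L := by
      rw [Subgroup.subgroupOf, Subgroup.comap_map_eq_self_of_injective]
      exact Subtype.val_injective
    rwa [h2] at h1
  obtain ⟨M, hM, hMc, hMV, hU⟩ := hcore H L N O V hfin hNL hLN hNc hNV hOo hNO hS
  exact ⟨M, hM, hMc, hMV, hU⟩

end Pool.Agent.W660.GY.P3
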