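import Pool.Agent.W660.GY.Part3.Stm

/-!
Gleason-Yamabe theorem, part 3: assembly of the Gleason lemma.
-/

namespace Pool.Agent.W660.GY.P3

open Filter Topology MeasureTheory
open scoped Pointwise

private theorem gasm_ind {G : Type} [Group G] (φ : G → ℝ) (Q : Set G) (e : ℝ)
    (h : ∀ g ∈ Q, ∀ x, |φ x - φ (g⁻¹ * x)| ≤ e) :
    ∀ n : ℕ, ∀ q ∈ Q ^ n, ∀ x, |φ (q * x) - φ x| ≤ n * e := by
  intro n
  induction n with
  | zero =>
    intro q hq x
    rw [pow_zero, Set.mem_one] at hq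
    subst hq
    simp
  | succ n ih =>
    intro q hq x
    rw [pow_succ] at hq
    obtain ⟨a, ha, b, hb, rfl⟩ := Set.mem_mul.1 hq
    have h1 := ih a ha (b * x)
    have h2 := h b hb (b * x)
    rw [inv_mul_cancel_left] at h2
    have h3 : φ (a * b * x) - φ x = (φ (a * (b * x)) - φ (b * x)) + (φ (b * x) - φ x) := by
      rw [mul_assoc]; ring
    rw [h3]
    refine (abs_add_le _ _).trans ?_
    push_cast
    linarith

theorem gasm : S_GASM := by
  intro hUC hPSI hPHI hTEL G _ _ _ _ _ K U hK hU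
  letI : MeasurableSpace G := borel G
  haveI : BorelSpace G := ⟨rfl⟩
  obtain ⟨U1, hU1o, h1U1, hU1⟩ := exists_open_nhds_one_mul_subset hU
  obtain ⟨C, hC, hC1⟩ := exists_compact_mem_nhds (1 : G)
  obtain ⟨U2, hU2o, h1U2, hU2C, hU2U1⟩ : ∃ U2 : Set G, IsOpen U2 ∧ (1 : G) ∈ U2 ∧ U2 ⊆ C ∧
      U2 ⊆ U1 :=
    ⟨U1 ∩ interior C, hU1o.inter isOpen_interior, ⟨h1U1, mem_interior_iff_mem_nhds.2 hC1⟩,
      fun x hx => interior_subset hx.2, fun x hx => hx.1⟩
  obtain ⟨η, hη1, hη0, hηs, hηI⟩ := exists_continuous_one_zero_of_isCompact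
    (isCompact_singleton (x := (1 : G))) (hU2o.isClosed_compl)
    (Set.disjoint_singleton_left.2 (fun h => h h1U2))
  let μ : Measure G := Measure.haar
  haveI : μ.IsHaarMeasure := by infer_instance
  have hint : IntegrableOn (fun y : G => η y⁻¹) U2 μ :=
    ((η.continuous.comp continuous_inv).continuousOn.integrableOn_compact hC).mono_set hU2C
  have hc0 : 0 < ∫ y in U2, η y⁻¹ ∂μ := by
    rw [setIntegral_pos_iff_support_of_nonneg_ae (ae_of_all _ fun y => (hηI y⁻¹).1) hint]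
    have hop : IsOpen (Function.support (fun y : G => η y⁻¹) ∩ U2) := by
      refine IsOpen.inter ?_ hU2o
      exact (η.continuous.comp continuous_inv).isOpen_support
    refine hop.measure_pos μ ⟨1, ?_, h1U2⟩
    have : η (1 : G) = 1 := hη1 rfl
    simp [this]
  generalize hc : (∫ y in U2, η y⁻¹ ∂μ) = c0 at hc0
  have hK1 : IsCompact (K * C) := hK.mul hC
  have hm0 : 0 ≤ μ.real (K * C) := measureReal_nonneg
  have hεpos : 0 < c0 / (4 * (μ.real (K * C) + 1)) := by positivity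
  obtain ⟨V, hV, hV1⟩ := hUC G η (K * C) _ η.continuous hηs hK1 hεpos
  refine ⟨V, hV, fun Q hQ hQV s hs hQs => ?_⟩
  obtain ⟨ψ, hψm, hψ0, hψ1, hψU, hψs, hψL⟩ := hPSI G Q U2 s hQ hU2o hs
  have hsub : Q ^ s * U2 ⊆ K * C := Set.mul_subset_mul hQs hU2C
  have h1Qs : (1 : G) ∈ Q ^ s := Set.subset_pow hQ.1 (by omega) hQ.1
  have hU2K : U2 ⊆ K * C := fun x hx => hsub ⟨1, h1Qs, x, hx, one_mul x⟩
  obtain ⟨φ, hφ0, hφ1, hφA, hφε⟩ := hPHI G μ η ψ (K * C) U2 Q V _ s η.continuous hηs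
    (fun x => (hηI x).1) (fun x => (hηI x).2) hK1 hU2o hU2K hεpos hs hψm hψ0 hψ1 hψU
    (fun x hx => hsub (hψs x hx))
    (fun g hg => ⟨(hψL g hg).1, fun x hx => hsub ((hψL g hg).2 x hx)⟩) hV1
  rw [hc] at hφ1
  have htel := hTEL G φ Q _ _ hQ hφA (fun g hg h hh => hφε g hg h (hQV hh))
  intro q hq
  have hqb := gasm_ind φ Q _ htel (2 * s) q hq 1
  rw [mul_one] at hqb
  have hs0 : (0 : ℝ) < s := by exact_mod_cast hs
  have hlt : ((2 * s : ℕ) : ℝ) * (c0 / (4 * (μ.real (K * C) + 1)) * μ.real (K * C) / s) < c0 := by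
    have h1 : ((2 * s : ℕ) : ℝ) * (c0 / (4 * (μ.real (K * C) + 1)) * μ.real (K * C) / s)
        = c0 * (μ.real (K * C) / (2 * (μ.real (K * C) + 1))) := by
      push_cast
      field_simp
      ring
    rw [h1]
    have h2 : μ.real (K * C) / (2 * (μ.real (K * C) + 1)) < 1 := by
      rw [div_lt_one (by positivity)]
      linarith
    nlinarith
  have hne : φ q ≠ 0 := by
    intro h0
    rw [h0, zero_sub, abs_neg] at hqb
    have := le_abs_self (φ 1)
    linarith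
  obtain ⟨y, hy, hηy⟩ := hφ0 q hne
  obtain ⟨a, ha, u, hu, rfl⟩ := Set.mem_mul.1 (hψs y hy)
  have hyU : (a * u)⁻¹ * q ∈ U2 := by
    by_contra hn
    exact hηy (hη0 hn)
  refine Set.mem_mul.2 ⟨a, ha, u * ((a * u)⁻¹ * q), hU1 (Set.mul_mem_mul (hU2U1 hu) (hU2U1 hyU)), ?_⟩
  group

end Pool.Agent.W660.GY.P3
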