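import Pool.Agent.W660.GY.Part3.Stm

namespace Pool.Agent.W660.GY.P3

open Filter Topology
open scoped Pointwise

theorem lgrp_small {G : Type} [Group G] [TopologicalSpace G] (F : Filter (Set G))
    (hF : F ≤ (𝓝 (1 : G)).smallSets) (V1 : Set G) (hV1 : V1 ∈ 𝓝 (1 : G)) :
    ∀ᶠ V in F, V ⊆ V1 :=
  hF (eventually_smallSets_subset.2 hV1)

theorem lgrp_one {G : Type} [Group G] (A : Set G) (hA : (1 : G) ∈ A) (n : ℕ) :
    (1 : G) ∈ A ^ n := by
  induction n with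
  | zero => simp
  | succ n ih =>
    rw [pow_succ]
    exact ⟨1, ih, 1, hA, one_mul 1⟩

theorem lgrp : S_LGRP := by
  intro hG G _ _ _ _ _ F Q s K hF hQ hK
  refine ⟨{ carrier := Lim F fun V => Q V ^ s V, mul_mem' := ?_, one_mem' := ?_,
            inv_mem' := ?_ }, rfl⟩
  · intro x y hx hy O hO
    have hcont : Tendsto (fun p : G × G × G => p.1 * p.2.1 * p.2.2⁻¹) (𝓝 (x, y, 1))
        (𝓝 (x * y)) := by
      have h0 : Continuous (fun p : G × G × G => p.1 * p.2.1 * p.2.2⁻¹) := by fun_prop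
      have h := h0.tendsto (x, y, 1)
      simpa using h
    have h1 := hcont hO
    rw [mem_map, nhds_prod_eq, nhds_prod_eq] at h1
    obtain ⟨O1, hO1, W, hW, h2⟩ := mem_prod_iff.1 h1
    obtain ⟨O2, hO2, U1, hU1, h3⟩ := mem_prod_iff.1 hW
    obtain ⟨V1, hV1, hV⟩ := hG G K U1 hK hU1
    filter_upwards [hQ, lgrp_small F hF V1 hV1, hx O1 hO1, hy O2 hO2] with V h4 h5 h6 h7
    obtain ⟨a, ha, ha1⟩ := h6
    obtain ⟨b, hb, hb1⟩ := h7
    obtain ⟨hUS, hQV, hs, hK'⟩ := h4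
    have h8 := hV (Q V) hUS (hQV.trans h5) (s V) hs hK'
    have h9 : a * b ∈ Q V ^ (2 * s V) := by
      rw [two_mul, pow_add]; exact Set.mul_mem_mul ha hb
    obtain ⟨c, hc, u, hu, hcu⟩ := h8 h9
    refine ⟨c, hc, ?_⟩
    have hcu' : c * u = a * b := hcu
    have h10 : c = a * b * u⁻¹ := by rw [← hcu']; group
    rw [h10]
    exact h2 (show (a, b, u) ∈ O1 ×ˢ W from ⟨ha1, h3 ⟨hb1, hu⟩⟩)
  · intro O hO
    filter_upwards [hQ] with V h4
    exact ⟨1, lgrp_one _ h4.1.1 _, mem_of_mem_nhds hO⟩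
  · intro x hx O hO
    have h1 : O⁻¹ ∈ 𝓝 x := by
      have h0 : Tendsto (fun z : G => z⁻¹) (𝓝 x) (𝓝 x⁻¹) := (continuous_inv.tendsto x)
      exact h0 hO
    filter_upwards [hQ, hx _ h1] with V h4 h6
    obtain ⟨a, ha, ha1⟩ := h6
    have h5 : (Q V)⁻¹ = Q V := by
      ext z
      constructor
      · intro hz
        have := h4.1.2 _ hz (-1)
        simpa using this
      · intro hz
        have := h4.1.2 _ hz (-1)
        simpa using this
    refine ⟨a⁻¹, ?_, ha1⟩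
    show a⁻¹ ∈ Q V ^ s V
    rw [← h5, inv_pow]
    show a⁻¹⁻¹ ∈ Q V ^ s V
    rw [inv_inv]
    exact ha

theorem lstep : S_LSTEP := by
  intro G _ _ _ F Q s hF hQ x hx O hO
  have hcont : Tendsto (fun p : G × G => p.1 * p.2⁻¹) (𝓝 (x, 1)) (𝓝 x) := by
    have h0 : Continuous (fun p : G × G => p.1 * p.2⁻¹) := by fun_prop
    have h := h0.tendsto (x, 1)
    simpa using h
  have h1 := hcont hO
  rw [mem_map, nhds_prod_eq] at h1
  obtain ⟨O1, hO1, U1, hU1, h2⟩ := mem_prod_iff.1 h1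
  filter_upwards [hQ, lgrp_small F hF U1 hU1, hx O1 hO1] with V h4 h5 h6
  obtain ⟨z, hz, hz1⟩ := h6
  have hz' : z ∈ Q V ^ (s V + 1) := hz
  rw [pow_succ] at hz'
  obtain ⟨q, hq, q1, hq1, hqq⟩ := hz'
  refine ⟨q, hq, ?_⟩
  have h7 : (z, q1) ∈ (fun p : G × G => p.1 * p.2⁻¹) ⁻¹' O := h2 ⟨hz1, h5 (h4 hq1)⟩
  have h8 : z * q1⁻¹ ∈ O := h7
  have h9 : q * q1 = z := hqq
  rw [← h9, mul_inv_cancel_right] at h8
  exact h8

end Pool.Agent.W660.GY.P3
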