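import Pool.Agent.W660.GY.Part3.Stm

/-!
Limit sets (project GY, part 3, LIMA; helper89).
-/

namespace Pool.Agent.W660.GY.P3

open Filter Topology
open scoped Pointwise

theorem lcl : S_LCL := by
  intro G _ F A
  refine isClosed_of_closure_subset fun x hx O hO => ?_
  obtain ⟨y, hy, hyL⟩ := mem_closure_iff_nhds.1 hx (interior O) (interior_mem_nhds.2 hO)
  have h1 := hyL (interior O) (isOpen_interior.mem_nhds hy)
  filter_upwards [h1] with V hV
  exact hV.mono (Set.inter_subset_inter_right _ interior_subset)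

theorem lsub : S_LSUB := by
  intro G _ F _ A K hK hA x hx
  by_contra hxK
  have h1 := hx Kᶜ (hK.isOpen_compl.mem_nhds hxK)
  obtain ⟨V, ⟨y, hy, hy'⟩, hV⟩ := (h1.and hA).exists
  exact hy' (hV hy)

theorem lcov : S_LCOV := by
  classical
  intro G _ F A K O hK hA hO hL
  by_contra hnot
  have h1 : ∀ᶠ V in (F : Filter (Set G)), ¬ A V ⊆ O := Ultrafilter.eventually_not.2 hnot
  have h2 : ∀ᶠ V in (F : Filter (Set G)), ∃ x, x ∈ A V ∧ x ∉ O := by
    filter_upwards [h1] with V hV
    exact Set.not_subset.1 hV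
  obtain ⟨V0, x0, -⟩ := h2.exists
  let a : Set G → G := fun V => if h : ∃ x, x ∈ A V ∧ x ∉ O then h.choose else x0
  have ha : ∀ᶠ V in (F : Filter (Set G)), a V ∈ A V ∧ a V ∉ O := by
    filter_upwards [h2] with V hV
    have : a V = hV.choose := dif_pos hV
    rw [this]
    exact hV.choose_spec
  have hKm : K ∈ F.map a := by
    rw [Ultrafilter.mem_map]
    filter_upwards [ha, hA] with V hV hV'
    exact hV' hV.1
  obtain ⟨x, hxK, hx⟩ := hK.ultrafilter_le_nhds (F.map a) (le_principal_iff.2 hKm)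
  have hxt : Tendsto a (F : Filter (Set G)) (𝓝 x) := hx
  have hxL : x ∈ Lim (F : Filter (Set G)) A := by
    intro O1 hO1
    filter_upwards [ha, hxt hO1] with V hV hV'
    exact ⟨a V, hV.1, hV'⟩
  have hxO := hxt (hO.mem_nhds (hL hxL))
  obtain ⟨V, hV, hV'⟩ := (ha.and hxO).exists
  exact hV.2 hV'

end Pool.Agent.W660.GY.P3
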