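import Pool.Agent.W660.GY.Part3.Stm

/-! Gleason-Yamabe, part 3: convolution with a bump function. -/

namespace Pool.Agent.W660.GY.P3

open Filter Topology MeasureTheory
open scoped Pointwise

private theorem phi_intg {G : Type} [TopologicalSpace G] [MeasurableSpace G]
    (μ : Measure G) [IsFiniteMeasureOnCompacts μ] {K : Set G} (hK : IsCompact K) (f : G → ℝ)
    (hf : Measurable f) (C : ℝ) (hC : ∀ y, |f y| ≤ C) (h0 : ∀ y, y ∉ K → f y = 0) :
    Integrable f μ := by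
  have h1 : IntegrableOn f K μ := Measure.integrableOn_of_bounded hK.measure_lt_top.ne
    hf.aestronglyMeasurable (Filter.Eventually.of_forall fun y => hC y)
  refine (integrableOn_iff_integrable_of_support_subset ?_).1 h1
  intro y hy
  by_contra hcon
  exact hy (h0 y hcon)

private theorem phi_bound {G : Type} [TopologicalSpace G] [MeasurableSpace G]
    (μ : Measure G) [IsFiniteMeasureOnCompacts μ] {K : Set G} (hK : IsCompact K) (f : G → ℝ)
    (C : ℝ) (hC : ∀ y ∈ K, |f y| ≤ C) (h0 : ∀ y, y ∉ K → f y = 0) :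
    |∫ y, f y ∂μ| ≤ C * μ.real K := by
  rw [← setIntegral_eq_integral_of_forall_compl_eq_zero h0, ← Real.norm_eq_abs]
  exact norm_setIntegral_le_of_norm_le_const hK.measure_lt_top fun x hx => by
    rw [Real.norm_eq_abs]
    exact hC x hx

theorem phi : S_PHI := by
  intro G _ _ _ _ _ _ _ μ _ η ψ K U Q V ε s hη hηc hη0 hη1 hK hU hUK hε hs hψ hψ0 hψ1 hψU hψK hQ hV
  have hs0 : (0 : ℝ) < s := by exact_mod_cast hs
  have hmη : ∀ x : G, Measurable fun y : G => η (y⁻¹ * x) := fun x =>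
    (hη.comp (continuous_inv.mul continuous_const)).measurable
  have hmψ : ∀ g : G, Measurable fun y : G => ψ (g * y) := fun g =>
    hψ.comp (continuous_const.mul continuous_id).measurable
  have hψK' : ∀ y, y ∉ K → ψ y = 0 := fun y hy => by
    by_contra hcon
    exact hy (hψK y hcon)
  have hψg : ∀ g ∈ Q, ∀ y, y ∉ K → ψ (g⁻¹ * y) = 0 := by
    intro g hg y hy
    have h1 : ψ y - ψ (g⁻¹ * y) = 0 := by
      by_contra hcon
      exact hy ((hQ g hg).2 y hcon)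
    rw [hψK' y hy] at h1
    linarith
  have hb : ∀ a b : ℝ, 0 ≤ a → a ≤ 1 → 0 ≤ b → b ≤ 1 → |a * b| ≤ 1 := by
    intro a b ha ha' hb hb'
    rw [abs_of_nonneg (mul_nonneg ha hb)]
    exact mul_le_one₀ ha' hb hb'
  have hi1 : ∀ x : G, Integrable (fun y => ψ y * η (y⁻¹ * x)) μ := fun x =>
    phi_intg μ hK _ (hψ.mul (hmη x)) 1 (fun y => hb _ _ (hψ0 _) (hψ1 _) (hη0 _) (hη1 _))
      fun y hy => by rw [hψK' y hy, zero_mul]
  have hi2 : ∀ g ∈ Q, ∀ x : G, Integrable (fun y => ψ (g⁻¹ * y) * η (y⁻¹ * x)) μ := fun g hg x =>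
    phi_intg μ hK _ ((hmψ _).mul (hmη x)) 1 (fun y => hb _ _ (hψ0 _) (hψ1 _) (hη0 _) (hη1 _))
      fun y hy => by rw [hψg g hg y hy, zero_mul]
  have htr : ∀ g x : G, ∫ y, ψ y * η (y⁻¹ * (g⁻¹ * x)) ∂μ =
      ∫ y, ψ (g⁻¹ * y) * η (y⁻¹ * x) ∂μ := by
    intro g x
    rw [← integral_mul_left_eq_self (μ := μ) (fun y => ψ (g⁻¹ * y) * η (y⁻¹ * x)) g]
    congr 1
    funext y
    rw [inv_mul_cancel_left, mul_inv_rev, mul_assoc]
  have hD : ∀ g ∈ Q, ∀ x : G, (∫ y, ψ y * η (y⁻¹ * x) ∂μ) -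
      ∫ y, ψ y * η (y⁻¹ * (g⁻¹ * x)) ∂μ = ∫ y, (ψ y - ψ (g⁻¹ * y)) * η (y⁻¹ * x) ∂μ := by
    intro g hg x
    rw [htr, ← integral_sub (hi1 x) (hi2 g hg x)]
    congr 1
    funext y
    ring
  have hi3 : ∀ g ∈ Q, ∀ x : G, Integrable (fun y => (ψ y - ψ (g⁻¹ * y)) * η (y⁻¹ * x)) μ := by
    intro g hg x
    have h1 := (hi1 x).sub (hi2 g hg x)
    refine h1.congr (Filter.Eventually.of_forall fun y => ?_)
    simp only [Pi.sub_apply]
    ring
  have ha0 : ∀ g ∈ Q, ∀ y, y ∉ K → ψ y - ψ (g⁻¹ * y) = 0 := fun g hg y hy => by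
    rw [hψK' y hy, hψg g hg y hy, sub_self]
  refine ⟨fun x => ∫ y, ψ y * η (y⁻¹ * x) ∂μ, ?_, ?_, ?_, ?_⟩
  · intro x hx
    by_contra hcon
    push Not at hcon
    apply hx
    have h1 : (fun y => ψ y * η (y⁻¹ * x)) = fun _ => 0 := by
      funext y
      by_cases hy : ψ y = 0
      · rw [hy, zero_mul]
      · rw [hcon y hy, mul_zero]
    simp only [h1, integral_zero]
  · have h1 : (∫ y in U, η y⁻¹ ∂μ) = ∫ y in U, ψ y * η (y⁻¹ * 1) ∂μ := by
      refine setIntegral_congr_fun hU.measurableSet fun y hy => ?_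
      show η y⁻¹ = ψ y * η (y⁻¹ * 1)
      rw [hψU y hy, one_mul, mul_one]
    rw [h1]
    exact setIntegral_le_integral (hi1 1)
      (Filter.Eventually.of_forall fun y => mul_nonneg (hψ0 _) (hη0 _))
  · intro g hg x
    simp only
    rw [hD g hg x]
    have h1 := phi_bound μ hK (fun y => (ψ y - ψ (g⁻¹ * y)) * η (y⁻¹ * x)) (1 / s) (fun y _ => by
      rw [abs_mul]
      have h2 := (hQ g hg).1 y
      have h3 : |η (y⁻¹ * x)| ≤ 1 := by
        rw [abs_of_nonneg (hη0 _)]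
        exact hη1 _
      calc |ψ y - ψ (g⁻¹ * y)| * |η (y⁻¹ * x)| ≤ (1 / s) * 1 :=
            mul_le_mul h2 h3 (abs_nonneg _) (by positivity)
        _ = 1 / s := mul_one _) (fun y hy => by rw [ha0 g hg y hy, zero_mul])
    calc _ ≤ 1 / s * μ.real K := h1
      _ = μ.real K / s := by ring
  · intro g hg h hh x
    simp only
    rw [hD g hg x, hD g hg (h⁻¹ * x), ← integral_sub (hi3 g hg x) (hi3 g hg _)]
    have h1 := phi_bound μ hK (fun y => (ψ y - ψ (g⁻¹ * y)) * η (y⁻¹ * x) -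
      (ψ y - ψ (g⁻¹ * y)) * η (y⁻¹ * (h⁻¹ * x))) (1 / s * ε) (fun y hy => by
      rw [← mul_sub, abs_mul]
      have h2 := (hQ g hg).1 y
      have h3 := hV h hh y hy x
      rw [abs_sub_comm] at h3
      exact mul_le_mul h2 h3 (abs_nonneg _) (by positivity)) (fun y hy => by
      rw [ha0 g hg y hy, zero_mul, zero_mul, sub_self])
    calc _ ≤ 1 / s * ε * μ.real K := h1
      _ = ε * μ.real K / s := by ring

end Pool.Agent.W660.GY.P3
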