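import Pool.Agent.W660.GY.Part3.Stm

/-! The Lipschitz function of a set of subgroups. -/

namespace Pool.Agent.W660.GY.P3

open Filter Topology
open scoped Pointwise

private noncomputable def psiC {G : Type} [Group G] (Q U : Set G) (s : ℕ) (x : G) : ℝ :=
  (1 / s) * ∑ j ∈ Finset.range s, (Q ^ j * U).indicator (fun _ => (1 : ℝ)) x

private theorem psi_ind_le_one {G : Type} (A : Set G) (x : G) :
    A.indicator (fun _ => (1 : ℝ)) x ≤ 1 := by
  classical
  by_cases h : x ∈ A
  · simp [h]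
  · simp [h]

private theorem psi_ind_nonneg {G : Type} (A : Set G) (x : G) :
    0 ≤ A.indicator (fun _ => (1 : ℝ)) x := by
  classical
  by_cases h : x ∈ A
  · simp [h]
  · simp [h]

private theorem psi_ind_le_of_imp {G : Type} {A B : Set G} {x y : G} (h : x ∈ A → y ∈ B) :
    A.indicator (fun _ => (1 : ℝ)) x ≤ B.indicator (fun _ => (1 : ℝ)) y := by
  classical
  by_cases h1 : x ∈ A
  · simp [h1, h h1]
  · simpa [h1] using psi_ind_nonneg B y

private theorem psi_shift {G : Type} [Group G] {Q U : Set G} {s : ℕ} {g : G}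
    (hg : g ∈ Q) (x : G) (hs : 1 ≤ s) : psiC Q U s (g⁻¹ * x) ≤ psiC Q U s x + 1 / s := by
  have hs0 : (0 : ℝ) < s := by exact_mod_cast hs
  have key : ∑ j ∈ Finset.range s, (Q ^ j * U).indicator (fun _ => (1 : ℝ)) (g⁻¹ * x) ≤
      (∑ j ∈ Finset.range s, (Q ^ j * U).indicator (fun _ => (1 : ℝ)) x) + 1 := by
    have h1 : ∑ j ∈ Finset.range s, (Q ^ j * U).indicator (fun _ => (1 : ℝ)) (g⁻¹ * x) ≤
        ∑ j ∈ Finset.range s, (Q ^ (j + 1) * U).indicator (fun _ => (1 : ℝ)) x := by
      refine Finset.sum_le_sum fun j _ => psi_ind_le_of_imp fun h => ?_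
      have h2 : g * (g⁻¹ * x) ∈ Q * (Q ^ j * U) := Set.mul_mem_mul hg h
      rw [mul_inv_cancel_left] at h2
      rwa [pow_succ', mul_assoc]
    have h2 : ∑ j ∈ Finset.range (s + 1), (Q ^ j * U).indicator (fun _ => (1 : ℝ)) x =
        ∑ j ∈ Finset.range s, (Q ^ (j + 1) * U).indicator (fun _ => (1 : ℝ)) x +
          (Q ^ 0 * U).indicator (fun _ => (1 : ℝ)) x := Finset.sum_range_succ' _ _
    have h3 : ∑ j ∈ Finset.range (s + 1), (Q ^ j * U).indicator (fun _ => (1 : ℝ)) x =
        ∑ j ∈ Finset.range s, (Q ^ j * U).indicator (fun _ => (1 : ℝ)) x +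
          (Q ^ s * U).indicator (fun _ => (1 : ℝ)) x := Finset.sum_range_succ _ _
    have h4 := psi_ind_nonneg (Q ^ 0 * U) x
    have h5 := psi_ind_le_one (Q ^ s * U) x
    linarith
  unfold psiC
  have h6 : (1 / (s : ℝ)) * ∑ j ∈ Finset.range s,
      (Q ^ j * U).indicator (fun _ => (1 : ℝ)) (g⁻¹ * x) ≤
      (1 / (s : ℝ)) * ((∑ j ∈ Finset.range s, (Q ^ j * U).indicator (fun _ => (1 : ℝ)) x) + 1) :=
    mul_le_mul_of_nonneg_left key (by positivity)
  rw [mul_add, mul_one] at h6
  exact h6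

private theorem psi_supp {G : Type} [Group G] {Q U : Set G} {s : ℕ} {x : G}
    (hx : psiC Q U s x ≠ 0) : ∃ j, j < s ∧ x ∈ Q ^ j * U := by
  classical
  unfold psiC at hx
  have h2 : ∑ j ∈ Finset.range s, (Q ^ j * U).indicator (fun _ => (1 : ℝ)) x ≠ 0 :=
    right_ne_zero_of_mul hx
  obtain ⟨j, hj, hj2⟩ := Finset.exists_ne_zero_of_sum_ne_zero h2
  exact ⟨j, Finset.mem_range.1 hj, Set.mem_of_indicator_ne_zero hj2⟩

/-- `GY3-PSI` -/
theorem psi : S_PSI := by
  intro G _ _ _ _ _ Q U s hQ hU hs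
  classical
  have hs0 : (0 : ℝ) < s := by exact_mod_cast hs
  have hmono : ∀ i j : ℕ, i ≤ j → Q ^ i * U ⊆ Q ^ j * U := fun i j hij =>
    Set.mul_subset_mul_right (Set.pow_subset_pow_right hQ.1 hij)
  refine ⟨psiC Q U s, ?_, ?_, ?_, ?_, ?_, ?_⟩
  · unfold psiC
    refine Measurable.const_mul (Finset.measurable_sum _ fun j _ => ?_) _
    exact measurable_const.indicator (hU.mul_left.measurableSet)
  · intro x
    unfold psiC
    exact mul_nonneg (by positivity) (Finset.sum_nonneg fun j _ => psi_ind_nonneg _ _)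
  · intro x
    unfold psiC
    have h1 : ∑ j ∈ Finset.range s, (Q ^ j * U).indicator (fun _ => (1 : ℝ)) x ≤
        ∑ j ∈ Finset.range s, (1 : ℝ) := Finset.sum_le_sum fun j _ => psi_ind_le_one _ _
    rw [Finset.sum_const, Finset.card_range, nsmul_eq_mul, mul_one] at h1
    calc (1 / (s : ℝ)) * _ ≤ (1 / (s : ℝ)) * s := mul_le_mul_of_nonneg_left h1 (by positivity)
      _ = 1 := by field_simp
  · intro x hx
    unfold psiC
    have h1 : ∑ j ∈ Finset.range s, (Q ^ j * U).indicator (fun _ => (1 : ℝ)) x =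
        ∑ j ∈ Finset.range s, (1 : ℝ) := by
      refine Finset.sum_congr rfl fun j _ => ?_
      have h2 : x ∈ Q ^ j * U := by
        have := hmono 0 j (Nat.zero_le j)
        apply this
        simpa using hx
      simp [h2]
    rw [h1, Finset.sum_const, Finset.card_range, nsmul_eq_mul, mul_one]
    field_simp
  · intro x hx
    obtain ⟨j, hj, hj2⟩ := psi_supp hx
    exact hmono j s hj.le hj2
  · intro g hg
    have hgi : g⁻¹ ∈ Q := by simpa using hQ.2 g hg (-1)
    refine ⟨fun x => ?_, fun x hx => ?_⟩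
    · have h1 := psi_shift (U := U) hg x hs
      have h2 := psi_shift (U := U) hgi (g⁻¹ * x) hs
      rw [inv_inv, mul_inv_cancel_left] at h2
      rw [abs_le]
      constructor
      · linarith
      · linarith
    · by_cases h0 : psiC Q U s x = 0
      · have h1 : psiC Q U s (g⁻¹ * x) ≠ 0 := by
          intro h
          exact hx (by rw [h0, h, sub_zero])
        obtain ⟨j, hj, hj2⟩ := psi_supp h1
        have h2 : g * (g⁻¹ * x) ∈ Q * (Q ^ j * U) := Set.mul_mem_mul hg hj2
        rw [mul_inv_cancel_left, ← mul_assoc, ← pow_succ'] at h2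
        exact hmono (j + 1) s hj h2
      · obtain ⟨j, hj, hj2⟩ := psi_supp h0
        exact hmono j s hj.le hj2

end Pool.Agent.W660.GY.P3
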