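import Pool.Agent.W660.GY.Part3.Stm

/-!
Gleason-Yamabe theorem, part 3: the consequence of the Peter-Weyl theorem for compact subgroups.
-/

namespace Pool.Agent.W660.GY.P3

open Filter Topology Set
open scoped Pointwise

theorem pwlg : S_PWLG := by
  intro hP G _ _ _ _ _ H U hH hU
  have hcs : CompactSpace H := isCompact_iff_compactSpace.mp hH
  have hU' : (Subtype.val : H → G) ⁻¹' U ∈ 𝓝 (1 : H) :=
    continuous_subtype_val.continuousAt.preimage_mem_nhds (by simpa using hU)
  obtain ⟨N0, O0, hN0c, hN0U, hO0, hN0O, hS0⟩ := hP H ((Subtype.val : H → G) ⁻¹' U) hU'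
  have hcoe : ((N0.map H.subtype : Subgroup G) : Set G) = (Subtype.val : H → G) '' (N0 : Set H) := by
    rw [Subgroup.coe_map]
    rfl
  have hNc : IsCompact ((N0.map H.subtype : Subgroup G) : Set G) := by
    rw [hcoe]
    exact hN0c.isCompact.image continuous_subtype_val
  have hCc : IsCompact ((Subtype.val : H → G) '' O0ᶜ) :=
    hO0.isClosed_compl.isCompact.image continuous_subtype_val
  have hd : Disjoint ((N0.map H.subtype : Subgroup G) : Set G) ((Subtype.val : H → G) '' O0ᶜ) := by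
    rw [hcoe, Set.disjoint_left]
    rintro x ⟨a, ha, rfl⟩ ⟨b, hb, hba⟩
    have : b = a := Subtype.ext hba
    subst this
    exact hb (hN0O ha)
  obtain ⟨O, O2, hO, hO2, hNO, hCO, hOO⟩ := SeparatedNhds.of_isCompact_isCompact hNc hCc hd
  refine ⟨N0.map H.subtype, O, ?_, hNc, ?_, hO, hNO, ?_⟩
  · rintro x ⟨a, _, rfl⟩
    exact a.2
  · rw [hcoe]
    rintro x ⟨a, ha, rfl⟩
    exact hN0U ha
  · intro S hSH hSO x hx
    have h1 : S.subgroupOf H ≤ N0 := by
      apply hS0
      intro a ha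
      by_contra hna
      have h2 : (a : G) ∈ O2 := hCO ⟨a, hna, rfl⟩
      have h3 : (a : G) ∈ closure O := hSO (Subgroup.mem_subgroupOf.mp ha)
      exact Set.disjoint_left.mp (hOO.closure_left hO2) h3 h2
    exact ⟨⟨x, hSH hx⟩, h1 (Subgroup.mem_subgroupOf.mpr hx), rfl⟩

end Pool.Agent.W660.GY.P3
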