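import Pool.Agent.W660.GY.Part3.Stm

/-!
Gleason-Yamabe theorem, part 3: assembly of the subgroup trapping lemma.
-/

set_option autoImplicit false

namespace Pool.Agent.W660.GY.P3

open Filter Topology
open scoped Pointwise

/-- the union of the subgroups contained in `V` -/
private def tasmQ {G : Type} [Group G] (V : Set G) : Set G :=
  {g | ∃ S : Subgroup G, (S : Set G) ⊆ V ∧ g ∈ S}

private theorem tasmQ_sub {G : Type} [Group G] (V : Set G) : tasmQ V ⊆ V := by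
  rintro g ⟨S, hS, hg⟩
  exact hS hg

private theorem tasmQ_one {G : Type} [Group G] (V : Set G) (h : (1 : G) ∈ V) :
    (1 : G) ∈ tasmQ V := by
  refine ⟨⊥, ?_, Subgroup.one_mem _⟩
  intro g hg
  have : g = 1 := by simpa using hg
  rw [this]
  exact h

private theorem tasmQ_US {G : Type} [Group G] (V : Set G) (h : (1 : G) ∈ V) : US (tasmQ V) := by
  refine ⟨tasmQ_one V h, ?_⟩
  rintro g ⟨S, hS, hg⟩ n
  exact ⟨S, hS, S.zpow_mem hg n⟩

private theorem tasmQ_inv {G : Type} [Group G] (V : Set G) : (tasmQ V)⁻¹ = tasmQ V := by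
  ext g
  constructor
  · rintro ⟨S, hS, hg⟩
    exact ⟨S, hS, (S.inv_mem_iff).1 hg⟩
  · rintro ⟨S, hS, hg⟩
    exact ⟨S, hS, (S.inv_mem_iff).2 hg⟩

private theorem tasm_closure {G : Type} [Group G] (V K : Set G)
    (hK : ∀ n : ℕ, tasmQ V ^ n ⊆ K) : (Subgroup.closure (tasmQ V) : Set G) ⊆ K := by
  intro g hg
  have h : ∃ n : ℕ, g ∈ tasmQ V ^ n := by
    refine Subgroup.closure_induction (p := fun g _ => ∃ n : ℕ, g ∈ tasmQ V ^ n)
      ?_ ?_ ?_ ?_ hg
    · intro x hx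
      exact ⟨1, by rwa [pow_one]⟩
    · exact ⟨0, by rw [pow_zero]; exact Set.mem_one.2 rfl⟩
    · rintro x y _ _ ⟨m, hm⟩ ⟨n, hn⟩
      exact ⟨m + n, by rw [pow_add]; exact Set.mul_mem_mul hm hn⟩
    · rintro x _ ⟨n, hn⟩
      refine ⟨n, ?_⟩
      have h1 : x⁻¹ ∈ (tasmQ V ^ n)⁻¹ := Set.inv_mem_inv.2 hn
      rwa [← inv_pow, tasmQ_inv] at h1
  obtain ⟨n, hn⟩ := h
  exact hK n hn

/-- the largest exponent -/
private theorem tasm_max {G : Type} [Group G] (X : Set G) :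
    ∃ s : Set G → ℕ, ∀ V : Set G, (1 : G) ∈ V → tasmQ V ⊆ X →
      (∃ n : ℕ, ¬ tasmQ V ^ n ⊆ X) →
      1 ≤ s V ∧ tasmQ V ^ s V ⊆ X ∧ ¬ tasmQ V ^ (s V + 1) ⊆ X := by
  classical
  refine ⟨fun V => if h : ∃ n : ℕ, ¬ tasmQ V ^ n ⊆ X then Nat.find h - 1 else 0, ?_⟩
  intro V h1 hX h
  have e : (if h : ∃ n : ℕ, ¬ tasmQ V ^ n ⊆ X then Nat.find h - 1 else 0) = Nat.find h - 1 :=
    dif_pos h
  beta_reduce
  rw [e]
  have h2 : ¬ tasmQ V ^ (Nat.find h) ⊆ X := Nat.find_spec h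
  have h3 : ∀ m < Nat.find h, tasmQ V ^ m ⊆ X := fun m hm => not_not.1 (Nat.find_min h hm)
  have h4 : 2 ≤ Nat.find h := by
    by_contra hlt
    have : Nat.find h = 0 ∨ Nat.find h = 1 := by omega
    rcases this with h5 | h5
    · rw [h5] at h2
      apply h2
      rw [pow_zero]
      intro g hg
      rw [Set.mem_one.1 hg]
      exact hX (tasmQ_one V h1)
    · rw [h5] at h2
      apply h2
      rwa [pow_one]
  refine ⟨by omega, h3 _ (by omega), ?_⟩
  have h6 : Nat.find h - 1 + 1 = Nat.find h := by omega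
  rw [h6]
  exact h2

private theorem tasm_lim_mono {G : Type} [TopologicalSpace G] (F : Filter (Set G))
    (A B : Set G → Set G) (h : ∀ᶠ V in F, A V ⊆ B V) : Lim F A ⊆ Lim F B := by
  intro x hx O hO
  filter_upwards [h, hx O hO] with V h1 h2
  exact h2.mono (Set.inter_subset_inter_left _ h1)

theorem tasm : S_TASM := by
  intro hGLEM hLCL hLSUB hLCOV hLGRP hLSTEP hPWG G _ _ _ _ _ U hU
  by_contra hcon
  push Not at hcon
  obtain ⟨K0, hK0n, hK0U, hK0c⟩ := local_compact_nhds hU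
  have hK0cl : IsClosed K0 := hK0c.isClosed
  -- the failing exponent
  have hfail : ∀ V ∈ 𝓝 (1 : G), ∃ n : ℕ, ¬ tasmQ V ^ n ⊆ K0 := by
    intro V hV
    by_contra hno
    push Not at hno
    have h1 := tasm_closure V K0 hno
    have h2 : ((Subgroup.closure (tasmQ V)).topologicalClosure : Set G) ⊆ K0 := by
      rw [Subgroup.topologicalClosure_coe]
      exact closure_minimal h1 hK0cl
    have h3 : IsCompact ((Subgroup.closure (tasmQ V)).topologicalClosure : Set G) :=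
      hK0c.of_isClosed_subset (Subgroup.isClosed_topologicalClosure _) h2
    obtain ⟨S, hSV, hS⟩ := hcon V hV _ h3 (h2.trans hK0U)
    apply hS
    intro g hg
    exact Subgroup.le_topologicalClosure _ (Subgroup.subset_closure ⟨S, hSV, hg⟩)
  -- the ultrafilter
  set F0 : Filter (Set G) := (𝓝 (1 : G)).smallSets ⊓ 𝓟 {V | V ∈ 𝓝 (1 : G)} with hF0
  have hF0n : F0.NeBot := by
    rw [hF0, Filter.inf_principal_neBot_iff]
    intro A hA
    obtain ⟨W, hW, hWA⟩ := Filter.eventually_smallSets.1 (show ∀ᶠ V in (𝓝 (1 : G)).smallSets,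
      V ∈ A from hA)
    exact ⟨W, hWA W subset_rfl, hW⟩
  set F : Ultrafilter (Set G) := Ultrafilter.of F0 with hF
  have hFF0 : (F : Filter (Set G)) ≤ F0 := Ultrafilter.of_le F0
  have hFs : (F : Filter (Set G)) ≤ (𝓝 (1 : G)).smallSets := hFF0.trans inf_le_left
  have hFn : ∀ᶠ V in (F : Filter (Set G)), V ∈ 𝓝 (1 : G) := by
    have : ∀ᶠ V in 𝓟 {V | V ∈ 𝓝 (1 : G)}, V ∈ 𝓝 (1 : G) := by
      rw [Filter.eventually_principal]
      exact fun V hV => hV
    exact this.filter_mono (hFF0.trans inf_le_right)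
  have hFsub : ∀ W ∈ 𝓝 (1 : G), ∀ᶠ V in (F : Filter (Set G)), V ⊆ W := fun W hW =>
    (Filter.eventually_smallSets.2 ⟨W, hW, fun _ h => h⟩).filter_mono hFs
  -- the first exponent
  obtain ⟨s, hs⟩ := tasm_max K0
  have hs' : ∀ᶠ V in (F : Filter (Set G)), (1 : G) ∈ V ∧ V ∈ 𝓝 (1 : G) ∧
      1 ≤ s V ∧ tasmQ V ^ s V ⊆ K0 ∧ ¬ tasmQ V ^ (s V + 1) ⊆ K0 := by
    filter_upwards [hFn, hFsub K0 hK0n] with V h1 h2
    have h3 : (1 : G) ∈ V := mem_of_mem_nhds h1
    exact ⟨h3, h1, hs V h3 ((tasmQ_sub V).trans h2) (hfail V h1)⟩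
  obtain ⟨H, hH⟩ := hLGRP hGLEM G (F : Filter (Set G)) tasmQ s K0 hFs
    (hs'.mono fun V h => ⟨tasmQ_US V h.1, tasmQ_sub V, h.2.2.1, h.2.2.2.1⟩) hK0c
  have hHK : (H : Set G) ⊆ K0 := by
    rw [hH]
    exact hLSUB G (F : Filter (Set G)) _ K0 hK0cl (hs'.mono fun V h => h.2.2.2.1)
  have hHc : IsCompact (H : Set G) := by
    refine hK0c.of_isClosed_subset ?_ hHK
    rw [hH]
    exact hLCL G _ _
  obtain ⟨N, O1, hNH, hNc, hNU, hO1, hNO1, hPW⟩ := hPWG G H (interior K0) hHc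
    (interior_mem_nhds.2 hK0n)
  set O : Set G := O1 ∩ interior K0 with hO
  have hOo : IsOpen O := hO1.inter isOpen_interior
  have hNO : (N : Set G) ⊆ O := Set.subset_inter hNO1 hNU
  have hOK : O ⊆ K0 := Set.inter_subset_right.trans interior_subset
  have hO1n : O ∈ 𝓝 (1 : G) := hOo.mem_nhds (hNO N.one_mem)
  -- the second exponent
  obtain ⟨t, ht⟩ := tasm_max O
  have ht' : ∀ᶠ V in (F : Filter (Set G)), (1 : G) ∈ V ∧ V ⊆ K0 ∧
      1 ≤ t V ∧ tasmQ V ^ t V ⊆ O ∧ ¬ tasmQ V ^ (t V + 1) ⊆ O := by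
    filter_upwards [hFn, hFsub O hO1n] with V h1 h2
    have h3 : (1 : G) ∈ V := mem_of_mem_nhds h1
    refine ⟨h3, h2.trans hOK, ht V h3 ((tasmQ_sub V).trans h2) ?_⟩
    obtain ⟨n, hn⟩ := hfail V h1
    exact ⟨n, fun h => hn (h.trans hOK)⟩
  have hts : ∀ᶠ V in (F : Filter (Set G)), tasmQ V ^ t V ⊆ tasmQ V ^ s V := by
    filter_upwards [hs', ht'] with V h1 h2
    refine Set.pow_subset_pow_right (tasmQ_one V h1.1) ?_
    by_contra hlt
    push Not at hlt
    apply h1.2.2.2.2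
    exact (Set.pow_subset_pow_right (tasmQ_one V h1.1) hlt).trans (h2.2.2.2.1.trans hOK)
  obtain ⟨H', hH'⟩ := hLGRP hGLEM G (F : Filter (Set G)) tasmQ t K0 hFs
    (ht'.mono fun V h => ⟨tasmQ_US V h.1, tasmQ_sub V, h.2.2.1, h.2.2.2.1.trans hOK⟩) hK0c
  have hH'H : H' ≤ H := by
    intro g hg
    have h1 : g ∈ (H' : Set G) := hg
    rw [hH'] at h1
    have h2 := tasm_lim_mono (F : Filter (Set G)) _ _ hts h1
    rw [← hH] at h2
    exact h2
  have hH'cl : (H' : Set G) ⊆ closure O1 := by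
    rw [hH']
    refine hLSUB G (F : Filter (Set G)) _ _ isClosed_closure (ht'.mono fun V h => ?_)
    exact h.2.2.2.1.trans (Set.inter_subset_left.trans subset_closure)
  have hH'N : H' ≤ N := hPW H' hH'H hH'cl
  have hstep : Lim (F : Filter (Set G)) (fun V => tasmQ V ^ (t V + 1)) ⊆ O := by
    refine (hLSTEP G (F : Filter (Set G)) tasmQ t hFs
      (Filter.Eventually.of_forall tasmQ_sub)).trans ?_
    rw [← hH']
    intro g hg
    exact hNO (hH'N hg)
  have hcov := hLCOV G F (fun V => tasmQ V ^ (t V + 1)) (K0 * K0) O (hK0c.mul hK0c)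
    (ht'.mono fun V h => by
      rw [pow_succ]
      exact Set.mul_subset_mul (h.2.2.2.1.trans hOK) ((tasmQ_sub V).trans h.2.1)) hOo hstep
  obtain ⟨V, h1, h2⟩ := (hcov.and ht').exists
  exact h2.2.2.2.2 h1

end Pool.Agent.W660.GY.P3
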