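import Pool.Agent.W660.GY.Part3.Stm

/-!
Gleason-Yamabe theorem, part 3: telescoping along the powers of an element.
-/

namespace Pool.Agent.W660.GY.P3

private theorem tel_pow {G : Type} [Group G] (φ : G → ℝ) (Q : Set G) (ε : ℝ) (hQ : US Q)
    (h2 : ∀ g ∈ Q, ∀ h ∈ Q, ∀ x,
      |(φ x - φ (g⁻¹ * x)) - (φ (h⁻¹ * x) - φ (g⁻¹ * (h⁻¹ * x)))| ≤ ε)
    (g : G) (hg : g ∈ Q) (x : G) (m : ℕ) :
    |φ x - φ ((g ^ m)⁻¹ * x) - m * (φ x - φ (g⁻¹ * x))| ≤ m * ε := by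
  induction m with
  | zero => simp
  | succ m ih =>
    have hgm : g ^ m ∈ Q := by
      have := hQ.2 g hg (m : ℤ)
      rwa [zpow_natCast] at this
    have h3 := h2 g hg (g ^ m) hgm x
    have e : (g ^ (m + 1))⁻¹ * x = g⁻¹ * ((g ^ m)⁻¹ * x) := by
      rw [pow_succ, mul_inv_rev, mul_assoc]
    rw [e]
    push_cast
    rw [abs_le] at *
    constructor <;> linarith [h3.1, h3.2, ih.1, ih.2]

theorem tel : S_TEL := by
  intro G _ φ Q A ε hQ h1 h2 g hg x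
  by_contra hlt
  push Not at hlt
  set d : ℝ := |φ x - φ (g⁻¹ * x)| - ε with hd
  have hdpos : 0 < d := by rw [hd]; linarith
  obtain ⟨m, hm⟩ := exists_nat_gt (A / d)
  have hA : A < m * d := by rwa [div_lt_iff₀ hdpos] at hm
  have h3 := tel_pow φ Q ε hQ h2 g hg x m
  have hgm : g ^ m ∈ Q := by
    have := hQ.2 g hg (m : ℤ)
    rwa [zpow_natCast] at this
  have h4 := h1 (g ^ m) hgm x
  have h5 : (m : ℝ) * |φ x - φ (g⁻¹ * x)| ≤ A + m * ε := by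
    have e1 : (m : ℝ) * |φ x - φ (g⁻¹ * x)| = |(m : ℝ) * (φ x - φ (g⁻¹ * x))| := by
      rw [abs_mul, abs_of_nonneg (Nat.cast_nonneg m : (0 : ℝ) ≤ (m : ℝ))]
    rw [e1]
    have e2 : (m : ℝ) * (φ x - φ (g⁻¹ * x)) = (φ x - φ ((g ^ m)⁻¹ * x))
        - (φ x - φ ((g ^ m)⁻¹ * x) - m * (φ x - φ (g⁻¹ * x))) := by ring
    rw [e2]
    exact (abs_sub _ _).trans (add_le_add h4 h3)
  have h6 : (m : ℝ) * d = m * |φ x - φ (g⁻¹ * x)| - m * ε := by rw [hd]; ring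
  linarith

end Pool.Agent.W660.GY.P3
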