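import Pool.Agent.W660.GY.Part3.Stm

/-!
GY part 3: van Dantzig, reduction to the totally disconnected case (helper241).
-/

namespace Pool.Agent.W660.GY.P3

open Filter Topology
open scoped Pointwise

section VDR241

variable {G : Type} [Group G] [TopologicalSpace G] [IsTopologicalGroup G]

private theorem vdr241_normal : (Subgroup.connectedComponentOfOne G).Normal := by
  constructor
  intro n hn g
  have hc : Continuous fun x : G => g * x * g⁻¹ := by fun_prop
  have h := hc.image_connectedComponent_subset 1
  have h1 : g * 1 * g⁻¹ = 1 := by group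
  rw [h1] at h
  exact h ⟨n, hn, rfl⟩

private theorem vdr241_td [(Subgroup.connectedComponentOfOne G).Normal] :
    TotallyDisconnectedSpace (G ⧸ Subgroup.connectedComponentOfOne G) := by
  rw [totallyDisconnectedSpace_iff_connectedComponent_one]
  have hq : IsQuotientMap (QuotientGroup.mk : G → G ⧸ Subgroup.connectedComponentOfOne G) :=
    QuotientGroup.isQuotientMap_mk _
  have hfib : ∀ y : G ⧸ Subgroup.connectedComponentOfOne G,
      IsConnected ((QuotientGroup.mk : G → G ⧸ Subgroup.connectedComponentOfOne G) ⁻¹' {y}) := by
    intro y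
    obtain ⟨a, rfl⟩ := QuotientGroup.mk_surjective y
    have he : (QuotientGroup.mk : G → G ⧸ Subgroup.connectedComponentOfOne G) ⁻¹'
        {(QuotientGroup.mk a : G ⧸ Subgroup.connectedComponentOfOne G)} =
        connectedComponent a := by
      ext x
      have h1 : connectedComponent a = a • connectedComponent (1 : G) := by
        rw [smul_connectedComponent, mul_one]
      rw [h1, Set.mem_smul_set_iff_inv_smul_mem, smul_eq_mul, Set.mem_preimage,
        Set.mem_singleton_iff, eq_comm, QuotientGroup.eq]
      rfl
    rw [he]
    exact isConnected_connectedComponent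
  have h2 := hq.isCoinducing.image_connectedComponent hfib 1
  rw [QuotientGroup.mk_one] at h2
  rw [← h2]
  ext y
  constructor
  · rintro ⟨x, hx, rfl⟩
    rw [Set.mem_singleton_iff, QuotientGroup.eq_one_iff]
    exact hx
  · rintro rfl
    exact ⟨1, mem_connectedComponent, QuotientGroup.mk_one _⟩

theorem vdr : S_VDR := by
  intro hVDT G _ _ _ _ _
  have hn : (Subgroup.connectedComponentOfOne G).Normal := vdr241_normal
  have hcl : IsClosed ((Subgroup.connectedComponentOfOne G : Subgroup G) : Set G) :=
    isClosed_connectedComponent
  have htd : TotallyDisconnectedSpace (G ⧸ Subgroup.connectedComponentOfOne G) := vdr241_td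
  have ht3 : T3Space (G ⧸ Subgroup.connectedComponentOfOne G) := inferInstance
  have ht2 : T2Space (G ⧸ Subgroup.connectedComponentOfOne G) := inferInstance
  obtain ⟨C, hCo, hCc⟩ := hVDT (G ⧸ Subgroup.connectedComponentOfOne G)
  set f : G →* G ⧸ Subgroup.connectedComponentOfOne G :=
    QuotientGroup.mk' (Subgroup.connectedComponentOfOne G) with hf
  have hfs : Function.Surjective f := QuotientGroup.mk'_surjective _
  have hfc : Continuous f := QuotientGroup.continuous_mk
  refine ⟨C.comap f, hCo.preimage hfc, ?_⟩
  intro L hLo hL
  have hker : f.ker ≤ L := by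
    rw [hf, QuotientGroup.ker_mk']
    have hclop : IsClopen (L : Set G) := ⟨L.isClosed_of_isOpen hLo, hLo⟩
    exact hclop.connectedComponent_subset L.one_mem
  have hkerC : f.ker ≤ C.comap f := hker.trans hL
  have hrel := Subgroup.relIndex_map_map f L (C.comap f)
  rw [sup_eq_left.2 hker, sup_eq_left.2 hkerC, Subgroup.map_comap_eq_self_of_surjective hfs] at hrel
  have hLo' : IsOpen ((L.map f : Subgroup _) : Set (G ⧸ Subgroup.connectedComponentOfOne G)) := by
    rw [Subgroup.coe_map]
    exact QuotientGroup.isOpenMap_coe _ hLo
  have hCs : CompactSpace C := isCompact_iff_compactSpace.mp hCc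
  have hfin : Finite (C ⧸ (L.map f).subgroupOf C) := by
    apply Subgroup.quotient_finite_of_isOpen
    exact hLo'.preimage continuous_subtype_val
  have hfi : ((L.map f).subgroupOf C).FiniteIndex := Subgroup.finiteIndex_of_finite_quotient
  constructor
  have h1 : (L.map f).relIndex C ≠ 0 := hfi.index_ne_zero
  rw [hrel] at h1
  exact h1

end VDR241

end Pool.Agent.W660.GY.P3
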